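import Pool.Agent.Q86.SA.Main
import Pool.Agent.Q86.SA.Not
import Pool.Agent.Q86.SA.Cone
import Pool.Agent.Q86.SA.Idem
import Pool.Agent.Q86.SA.Base
import Pool.Agent.Q86.SA.Exist
import Pool.Agent.Q121.SA.COMP
import Pool.Agent.Q121.SA.DIAG
import Pool.Agent.Q121.SA.FG
import Pool.Agent.Q121.SA.FRAME
import Pool.Agent.Q121.SA.NONEL
import Pool.Agent.Q121.SA.OUT
import Pool.Agent.Q121.SA.SLICE
import Pool.Agent.Q121.SA.SR
import Pool.Agent.Q121.SA.PTS
import Pool.Agent.Q86.SA.Proj
import Pool.Agent.Q151.SA.CONV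
import Pool.Agent.Q153.SA.GROW
import Pool.Agent.Q277.SA.HYP
import Pool.Agent.Q277.SA.SYS

/-!
# The simple Anosov domain is not a maximal domain of discontinuity

Let `S = Γ \ ℍ` be any closed oriented hyperbolic surface (`IsSurface Γ`; such surfaces exist). The
simple `2`-Anosov domain is not a maximal domain of discontinuity for the action of the mapping
class group `Out(Γ)` on the character variety of `Γ` in `SL(4,ℂ)`.

More precisely the character `χ(γ) = (tr γ)²` of the representation `γ ↦ γ ⊗ γ` (it is `1`-Anosov,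
with eigenvalues `λ², 1, 1, λ⁻²`) is not in the simple `2`-Anosov domain, whereas every domain of
discontinuity `Ω` is contained in a domain of discontinuity that contains `χ`: the union of `Ω` and
of the translates of a neighbourhood of `χ` in which the eigenvalues grow uniformly. Indeed
properness is one-sided: if `x_n → x` with `x` in this neighbourhood and `φ_n x_n` converges to any
point of the character variety, then the mapping classes `φ_n` are finite in number.

All definitions are in `Pool/Agent/Q86/SA/Def.lean`.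
-/

set_option autoImplicit false

namespace Pool.Agent.Results.MP_c30652_gt.NotMaximal

open Pool.Agent.Q86.SA
open scoped MatrixGroups

theorem result : (∃ Γ : Subgroup SL(2, ℝ), IsSurface Γ) ∧
    ∀ Γ : Subgroup SL(2, ℝ), IsSurface Γ →
      ∃ χ : CharVar Γ 4, (∀ γ : Γ, χ.1 γ = (((γ.1.1 0 0 + γ.1.1 1 1) ^ 2 : ℝ) : ℂ)) ∧
        χ ∉ simpleAnosovDomain Γ 4 2 ∧
        (∀ Ω : Set (CharVar Γ 4), IsDomain Ω →
          ∃ Ω' : Set (CharVar Γ 4), IsDomain Ω' ∧ Ω ⊆ Ω' ∧ χ ∈ Ω') ∧
        ¬ IsMaximalDomain (simpleAnosovDomain Γ 4 2) := by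
  have hcomp := Pool.Agent.Q121.SA.comp
  have hfin := Pool.Agent.Q121.SA.fin
  have hdiag := Pool.Agent.Q121.SA.diag
  have hhyp := Pool.Agent.Q277.SA.hyp hcomp hfin
  have hspec := Pool.Agent.Q121.SA.spec hcomp hfin hhyp hdiag
  have hnonel := Pool.Agent.Q121.SA.nonel hcomp hfin hhyp hdiag
  have hfg := Pool.Agent.Q121.SA.fg hcomp
  have hframe := Pool.Agent.Q121.SA.frame hdiag
  have hout := Pool.Agent.Q121.SA.out hcomp hfin hhyp hspec hnonel hfg hframe
  have hslice := Pool.Agent.Q121.SA.slice hcomp hdiag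
  have hpts := Pool.Agent.Q121.SA.pts hhyp hdiag hnonel
  have hconv := Pool.Agent.Q151.SA.conv hpts Pool.Agent.Q86.SA.PJ.proj Pool.Agent.Q121.SA.blk
  have hgrow := Pool.Agent.Q153.SA.grow hfin hslice Pool.Agent.Q121.SA.sr newt cone
  have hsys := Pool.Agent.Q277.SA.sys hcomp hhyp hdiag hspec
  exact ⟨exist, main base hfin (notin hsys idem) hconv hgrow hout⟩

end Pool.Agent.Results.MP_c30652_gt.NotMaximal
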